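import Pool.Agent.W5h42.MG.All2

/-! MP_714120_an: minimal graphs over unbounded plane domains with small asymptotic angle.  The
definitions are in `Pool/Agent/W5h42/MG/Defs.lean` (`px`, `py`, `Wd`, `ci`, `ang`) and
`Pool/Agent/W5h42/MG/Sol.lean` (`UDomain`, `Solution`, `star`, `asymptoticAngle`). -/

set_option autoImplicit false

open Set
open scoped ENNReal

namespace Pool.Agent.Results.MP_714120_an.SmallAngle

open Pool.Agent.W5h42.MG

/-- (1) There is no solution if the asymptotic angle is less than `4/3`.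
(2) If the asymptotic angle is less than `b < 2` then every solution has at most linear growth,
`u(z) ≤ (3/2) b / (2 - b)² |z|` for all `z` of the domain with large `|z|`. -/
theorem result :
    (∀ D : Set ℂ, UDomain D → asymptoticAngle D < ENNReal.ofReal (4 / 3) →
      ¬ ∃ u : ℂ → ℝ, Solution D u) ∧
    (∀ (D : Set ℂ) (u : ℂ → ℝ), UDomain D → Solution D u → ∀ b : ℝ, 0 < b → b < 2 →
      asymptoticAngle D < ENNReal.ofReal b →
      ∃ r₀ : ℝ, 0 < r₀ ∧ ∀ z ∈ D, r₀ ≤ ‖z‖ → u z ≤ 3 / 2 * b / (2 - b) ^ 2 * ‖z‖) :=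
  ⟨fun _ hD ha h => h.elim fun _ hu => none2 hD hu ha,
    fun _ _ hD hu _ hb hb2 ha => growth hD hu hb hb2 ha⟩

end Pool.Agent.Results.MP_714120_an.SmallAngle
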